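import Pool.Agent.MP850d4c.Ham

set_option autoImplicit false

/-!
# A hypohamiltonian snark with `mu_3 = 4`

Steffen conjectured that every hypohamiltonian snark `G` satisfies `mu_3(G) = 3`. This file gives
a counterexample on 58 vertices. It is an iterated dot product of seven copies of the Petersen
graph, chosen such that it contains no cycle of length 6, while `mu_3(G) = 3` together with girth
at least 5 forces a 6-cycle (the core of three 1-factors).
-/

namespace Pool.Agent.Results.MP_850d4c_co.HypoSnarkMu3

open SimpleGraph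

/-- A 1-factor of `G`: a set of edges of `G` covering every vertex exactly once. -/
def IsOneFactor {V : Type} (G : SimpleGraph V) (M : Set (Sym2 V)) : Prop :=
  M ⊆ G.edgeSet ∧ ∀ v : V, ∃! e : Sym2 V, e ∈ M ∧ v ∈ e

/-- `mu k G` is the minimum, over all choices of `k` 1-factors of `G` (repetitions allowed), of
the number of edges of `G` that lie in none of them. -/
noncomputable def mu {V : Type} (k : ℕ) (G : SimpleGraph V) : ℕ :=
  sInf {m : ℕ | ∃ M : Fin k → Set (Sym2 V), (∀ i, IsOneFactor G (M i)) ∧
    (G.edgeSet \ ⋃ i, M i).ncard = m}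

/-- `G` is cyclically 4-edge-connected: after deleting fewer than four edges, any two cycles
of the remaining graph lie in the same connected component. -/
def IsCyclicallyFourEdgeConnected {V : Type} (G : SimpleGraph V) : Prop :=
  ∀ F : Finset (Sym2 V), (F : Set (Sym2 V)) ⊆ G.edgeSet → F.card < 4 →
    ∀ (u w : V) (p : (G.deleteEdges (F : Set (Sym2 V))).Walk u u)
      (q : (G.deleteEdges (F : Set (Sym2 V))).Walk w w),
      p.IsCycle → q.IsCycle → (G.deleteEdges (F : Set (Sym2 V))).Reachable u w

/-- A snark: a cubic graph that is cyclically 4-edge-connected, has girth at least 5 and has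
chromatic index 4. -/
structure IsSnark {V : Type} (G : SimpleGraph V) : Prop where
  cubic : ∀ v : V, (G.neighborSet v).ncard = 3
  cyclically_four_edge_connected : IsCyclicallyFourEdgeConnected G
  girth : 5 ≤ G.egirth
  chromatic_index : G.lineGraph.chromaticNumber = 4

/-- `G` is hypohamiltonian: `G` has no Hamiltonian cycle, but `G - v` has a Hamiltonian cycle for
every vertex `v`. -/
def IsHypohamiltonian {V : Type} [DecidableEq V] (G : SimpleGraph V) : Prop :=
  (¬ ∃ (a : V) (p : G.Walk a a), p.IsHamiltonianCycle) ∧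
    ∀ v : V, ∃ (a : ({v}ᶜ : Set V)) (p : (G.induce ({v}ᶜ : Set V)).Walk a a),
      p.IsHamiltonianCycle

/-- There is a hypohamiltonian snark (on 58 vertices) with `mu_3 = 4`. -/
theorem result : ∃ G : SimpleGraph (Fin 58), IsSnark G ∧ IsHypohamiltonian G ∧ mu 3 G = 4 := by
  refine ⟨MP850d4c.G, ⟨MP850d4c.cubic, ?_, MP850d4c.girth5, MP850d4c.line_chrom⟩,
    ⟨MP850d4c.not_ham, MP850d4c.ham⟩, MP850d4c.mu_eq⟩
  intro F hF hcard u w p q hp hq
  refine MP850d4c.cyc4 (F : Set (Sym2 (Fin 58))) hF ?_ u w p q hp hq
  rwa [Set.ncard_coe_finset]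

end Pool.Agent.Results.MP_850d4c_co.HypoSnarkMu3
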